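import Pool.Agent.helper81.PL.Base
import Pool.Agent.helper62.PL.PRS
import Pool.Agent.helper62.PL.EQT
import Pool.Agent.helper62.PL.ITR
import Pool.Agent.helper62.PL.DUP
import Pool.Agent.helper52.PL.MAC
import Pool.Agent.helper46.PL.CND
import Pool.Agent.helper16.PL.INP
import Pool.Agent.helper50.PL.PAR
import Pool.Agent.helper79.PL.CST
import Pool.Agent.helper61.PL.OUT
import Pool.Agent.helper66.PL.CAR

/-!
# Polynomial time library: the statements of stage 1 hold
-/

namespace Pool.Agent.helper81.PL

instance : S1 where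
  PFX := PFX
  DUP := DUP
  PRS := PRS
  CST := CST
  PAR := PAR DUP
  CAR := CAR PRS
  CDR := CDR PRS
  CND := CND DUP
  EQT := EQT PFX PRS
  ITR := ITR PRS
  SIZ := SIZ
  INP := INP
  OUT := OUT
  MAC := MAC INP OUT

end Pool.Agent.helper81.PL
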