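import Pool.Agent.helper81.PL.FinA

/-!
# Polynomial time library: clipped iteration and folds

`clip N x` cuts `x` down to polynomial size in `N`; it does nothing if `Fits N x`.
-/

set_option autoImplicit false
set_option linter.dupNamespace false
set_option linter.unusedVariables false
set_option linter.unusedSectionVars false

namespace Pool.Agent.helper81.PL

open Pool.Agent.helper62 Prog Function Polynomial

variable {α β γ δ : Type}

/-- Types with clipping. -/
class Clip (β : Type) where
  /-- cut down -/
  clip : ℕ → β → β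
  /-- small elements -/
  Fits : ℕ → β → Prop
  clip_eq : ∀ {N : ℕ} {x : β}, Fits N x → clip N x = x

open Clip

instance : Clip Bool := ⟨fun _ x => x, fun _ _ => True, fun _ => rfl⟩

instance : Clip Unit := ⟨fun _ x => x, fun _ _ => True, fun _ => rfl⟩

instance : Clip ℕ := ⟨fun N x => min x N, fun N x => x ≤ N, fun h => min_eq_left h⟩

instance [Clip α] [Clip β] : Clip (α × β) :=
  ⟨fun N x => (clip N x.1, clip N x.2), fun N x => Fits N x.1 ∧ Fits N x.2,
    fun h => by rw [clip_eq h.1, clip_eq h.2]⟩

instance [Clip α] : Clip (List α) :=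
  ⟨fun N l => (l.take N).map (clip N), fun N l => l.length ≤ N ∧ ∀ x ∈ l, Fits N x,
    fun {N l} h => by
      rw [List.take_of_length_le h.1]
      conv_rhs => rw [← List.map_id l]
      exact List.map_congr_left (fun x hx => clip_eq (h.2 x hx))⟩

instance [Clip α] : Clip (Option α) :=
  ⟨fun N o => o.map (clip N), fun N o => ∀ x ∈ o, Fits N x,
    fun {N o} h => by
      cases o with
      | none => rfl
      | some a => rw [Option.map_some, clip_eq (h a rfl)]⟩

instance : Clip (Finset ℕ) :=
  ⟨fun N s => s.filter (fun x => x < N), fun N s => ∀ x ∈ s, x < N,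
    fun h => Finset.filter_true_of_mem h⟩

@[simp] lemma fits_bool {N : ℕ} {x : Bool} : Fits N x := trivial

@[simp] lemma fits_unit {N : ℕ} {x : Unit} : Fits N x := trivial

@[simp] lemma fits_nat {N x : ℕ} : Fits N x ↔ x ≤ N := Iff.rfl

@[simp] lemma fits_prod [Clip α] [Clip β] {N : ℕ} {x : α × β} :
    Fits N x ↔ Fits N x.1 ∧ Fits N x.2 := Iff.rfl

@[simp] lemma fits_list [Clip α] {N : ℕ} {l : List α} :
    Fits N l ↔ l.length ≤ N ∧ ∀ x ∈ l, Fits N x := Iff.rfl

@[simp] lemma fits_none [Clip α] {N : ℕ} : Fits N (none : Option α) := by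
  intro x hx; cases hx

@[simp] lemma fits_some [Clip α] {N : ℕ} {a : α} : Fits N (some a) ↔ Fits N a := by
  constructor
  · intro h; exact h a rfl
  · intro h x hx; cases hx; exact h

@[simp] lemma fits_finset {N : ℕ} {s : Finset ℕ} : Fits N s ↔ ∀ x ∈ s, x < N := Iff.rfl

/-- clipped iteration -/
def citer [Clip β] (N n : ℕ) (s : β → β) (x : β) : β := (fun y => clip N (s y))^[n] (clip N x)

/-- clipped fold -/
def cfold [Clip γ] (N : ℕ) (s : γ → β → γ) (x : γ) (l : List β) : γ :=
  l.foldl (fun y b => clip N (s y b)) (clip N x)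

/-- Clipped iteration is iteration if all values fit. -/
lemma citer_eq [Clip β] {N n : ℕ} {s : β → β} {x : β} (h : ∀ i ≤ n, Fits N (s^[i] x)) :
    citer N n s x = s^[n] x := by
  unfold citer
  have h0 : Fits N x := h 0 (Nat.zero_le _)
  rw [clip_eq h0]
  induction n with
  | zero => rfl
  | succ n ih =>
    rw [iterate_succ_apply', iterate_succ_apply', ih (fun i hi => h i (by omega))]
    exact clip_eq (by rw [← iterate_succ_apply' s]; exact h (n + 1) le_rfl)

/-- Clipped iteration is iteration if there is an invariant. -/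
lemma citer_inv [Clip β] {N n : ℕ} {s : β → β} {x : β} (P : β → Prop) (hx : P x)
    (hs : ∀ y, P y → P (s y)) (hf : ∀ y, P y → Fits N y) :
    citer N n s x = s^[n] x ∧ P (s^[n] x) := by
  have h : ∀ i, P (s^[i] x) := by
    intro i
    induction i with
    | zero => exact hx
    | succ i ih => rw [iterate_succ_apply']; exact hs _ ih
  exact ⟨citer_eq (fun i _ => hf _ (h i)), h n⟩

/-- Clipped folds are folds if all values fit. -/
lemma cfold_eq [Clip γ] {N : ℕ} {s : γ → β → γ} {x : γ} {l : List β}
    (h : ∀ l', l' <+: l → Fits N (l'.foldl s x)) : cfold N s x l = l.foldl s x := by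
  unfold cfold
  have hx : Fits N x := h [] (List.nil_prefix)
  rw [clip_eq hx]
  clear hx
  induction l generalizing x with
  | nil => rfl
  | cons b l ih =>
    have h1 : Fits N (s x b) := h [b] ⟨l, rfl⟩
    rw [List.foldl_cons, List.foldl_cons, clip_eq h1]
    exact ih (fun l' hl' => h (b :: l') (List.cons_prefix_cons.mpr ⟨rfl, hl'⟩))

/-- Clipped folds are folds if there is an invariant. -/
lemma cfold_inv [Clip γ] {N : ℕ} {s : γ → β → γ} {x : γ} {l : List β} (P : γ → Prop) (hx : P x)
    (hs : ∀ y, ∀ b ∈ l, P y → P (s y b)) (hf : ∀ y, P y → Fits N y) :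
    cfold N s x l = l.foldl s x ∧ P (l.foldl s x) := by
  have h : ∀ (l' : List β) (x : γ), (∀ b ∈ l', b ∈ l) → P x → P (l'.foldl s x) := by
    intro l'
    induction l' with
    | nil => intro x _ hx; exact hx
    | cons b l' ih =>
      intro x hl hx
      exact ih _ (fun b hb => hl b (List.mem_cons_of_mem _ hb)) (hs x b (hl b List.mem_cons_self) hx)
  exact ⟨cfold_eq (fun l' hl' => hf _ (h l' x (fun b hb => hl'.subset hb) hx)), h l x (fun b hb => hb) hx⟩

/-- Clipping is polynomial. -/
class LClip (β : Type) [Rep β] [Clip β] : Prop where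
  size : ∃ c : Polynomial ℕ, ∀ (N : ℕ) (x : β), sz (clip N x) ≤ c.eval N
  pt : PT (fun p : ℕ × β => (clip p.1 p.2 : β))

variable [Rep α] [Rep β] [Rep γ] [Rep δ]

section

variable [S1]

instance : LClip Bool where
  size := ⟨3, fun N x => (sz_bool_le _).trans (by simp)⟩
  pt := pt_snd

instance : LClip Unit where
  size := ⟨1, fun N x => by
    simp only [eval_one]
    exact le_rfl⟩
  pt := pt_snd

instance : LClip ℕ where
  size := ⟨2 * X + 1, fun N x => by
    rw [sz_nat]
    simp only [eval_add, eval_mul, eval_ofNat, eval_X, eval_one]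
    have : (clip N x : ℕ) ≤ N := min_le_right _ _
    omega⟩
  pt := by
    have : PT (fun p : ℕ × ℕ => min p.2 p.1) := by fun_prop
    exact this

instance [Clip α] [Clip β] [LClip α] [LClip β] : LClip (α × β) where
  size := by
    obtain ⟨c, hc⟩ := LClip.size (β := α)
    obtain ⟨d, hd⟩ := LClip.size (β := β)
    refine ⟨c + d + 1, fun N x => ?_⟩
    change sz (clip N x.1, clip N x.2) ≤ _
    rw [sz_prod]
    simp only [eval_add, eval_one]
    have := hc N x.1
    have := hd N x.2
    omega
  pt := by
    have h1 := LClip.pt (β := α)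
    have h2 := LClip.pt (β := β)
    have h3 : PT (fun p : ℕ × α × β => (clip p.1 p.2.1 : α)) :=
      PT.comp (f := fun p : ℕ × α × β => (p.1, p.2.1)) h1 (by fun_prop)
    have h4 : PT (fun p : ℕ × α × β => (clip p.1 p.2.2 : β)) :=
      PT.comp (f := fun p : ℕ × α × β => (p.1, p.2.2)) h2 (by fun_prop)
    exact PT.pair h3 h4

instance [Clip α] [LClip α] : LClip (List α) where
  size := by
    obtain ⟨c, hc⟩ := LClip.size (β := α)
    refine ⟨X * (c + 1) + 1, fun N l => ?_⟩
    change sz ((l.take N).map (clip N)) ≤ _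
    simp only [eval_add, eval_mul, eval_X, eval_one]
    refine sz_list_le (by simp) (fun a ha => ?_)
    rw [List.mem_map] at ha
    obtain ⟨b, _, rfl⟩ := ha
    exact hc N b
  pt := by
    have h1 := LClip.pt (β := α)
    have h2 : PT (fun p : ℕ × List α => (p.2.take p.1).map (fun x => (clip p.1 x : α))) := by
      refine pt_map ?_ (by fun_prop)
      exact PT.comp (f := fun p : (ℕ × List α) × α => (p.1.1, p.2)) h1 (by fun_prop)
    exact h2

instance [Clip α] [LClip α] : LClip (Option α) where
  size := by
    obtain ⟨c, hc⟩ := LClip.size (β := α)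
    refine ⟨c + 2, fun N l => ?_⟩
    change sz (l.map (clip N)) ≤ _
    simp only [eval_add, eval_ofNat]
    refine sz_option_le _ _ (fun a ha => ?_)
    rw [Option.mem_def, Option.map_eq_some_iff] at ha
    obtain ⟨b, _, rfl⟩ := ha
    exact hc N b
  pt := by
    have h1 := LClip.pt (β := α)
    have h2 : PT (fun p : ℕ × Option α => p.2.map (fun x => (clip p.1 x : α))) := by
      refine pt_optMap (by fun_prop) ?_
      exact PT.comp (f := fun p : (ℕ × Option α) × α => (p.1.1, p.2)) h1 (by fun_prop)
    exact h2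

instance : LClip (Finset ℕ) where
  size := by
    refine ⟨X * (2 * X + 2) + 1, fun N s => ?_⟩
    change sz ((s.filter (fun x => x < N)).sort) ≤ _
    simp only [eval_add, eval_mul, eval_X, eval_one, eval_ofNat]
    refine sz_list_le (m := 2 * N + 1) ?_ (fun a ha => ?_)
    · rw [Finset.length_sort]
      calc (s.filter (fun x => x < N)).card ≤ (Finset.range N).card :=
            Finset.card_le_card (fun x hx => by
              rw [Finset.mem_filter] at hx
              exact Finset.mem_range.mpr hx.2)
        _ = N := Finset.card_range N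
    · rw [Finset.mem_sort, Finset.mem_filter] at ha
      rw [sz_nat]
      omega
  pt := by
    have h : PT (fun p : ℕ × Finset ℕ => p.2.filter (fun x => leb (x + 1) p.1 = true)) := by
      fun_prop
    have e : (fun p : ℕ × Finset ℕ => (clip p.1 p.2 : Finset ℕ)) =
        fun p : ℕ × Finset ℕ => p.2.filter (fun x => leb (x + 1) p.1 = true) := by
      funext p
      change p.2.filter (fun x => x < p.1) = _
      ext x
      simp only [Finset.mem_filter, leb, decide_eq_true_eq, Nat.lt_iff_add_one_le]
    rw [e]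
    exact h

@[fun_prop] theorem pt_clip [Clip β] [LClip β] : PT (fun p : ℕ × β => (clip p.1 p.2 : β)) :=
  LClip.pt

/-- Clipped iteration is polynomial. -/
@[fun_prop] theorem pt_citer [Clip β] [LClip β] {N n : α → ℕ} {s : α → β → β} {x : α → β}
    (hN : PT N) (hn : PT n) (hs : PT (fun p : α × β => s p.1 p.2)) (hx : PT x) :
    PT (fun a => citer (N a) (n a) (s a) (x a)) := by
  obtain ⟨c, hc⟩ := LClip.size (β := β)
  have h1 : PT (fun p : α × β => (clip (N p.1) (s p.1 p.2) : β)) :=
    PT.comp (f := fun p : α × β => (N p.1, s p.1 p.2)) LClip.pt (by fun_prop)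
  refine pt_iter (s := fun a y => clip (N a) (s a y)) (c := fun a => c.eval (N a)) hn
    (PT.comp (f := fun a => (N a, x a)) LClip.pt (by fun_prop)) h1 (hN.nat_pb.poly c)
    (fun a i hi => ?_)
  cases i with
  | zero => exact hc _ _
  | succ i => rw [iterate_succ_apply']; exact hc _ _

/-- Clipped folds are polynomial. -/
@[fun_prop] theorem pt_cfold [Clip γ] [LClip γ] {N : α → ℕ} {s : α → γ → β → γ} {x : α → γ}
    {l : α → List β} (hN : PT N) (hs : PT (fun p : α × γ × β => s p.1 p.2.1 p.2.2)) (hx : PT x)
    (hl : PT l) : PT (fun a => cfold (N a) (s a) (x a) (l a)) := by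
  obtain ⟨c, hc⟩ := LClip.size (β := γ)
  have h1 : PT (fun p : α × γ × β => (clip (N p.1) (s p.1 p.2.1 p.2.2) : γ)) :=
    PT.comp (f := fun p : α × γ × β => (N p.1, s p.1 p.2.1 p.2.2)) LClip.pt (by fun_prop)
  refine pt_foldl (s := fun a y b => clip (N a) (s a y b)) (c := fun a => c.eval (N a)) hl
    (PT.comp (f := fun a => (N a, x a)) LClip.pt (by fun_prop)) h1 (hN.nat_pb.poly c)
    (fun a i hi => ?_)
  rcases List.eq_nil_or_concat ((l a).take i) with h | ⟨m, b, h⟩
  · rw [h]; exact hc _ _
  · rw [h, List.concat_eq_append, List.foldl_concat]; exact hc _ _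

end

end Pool.Agent.helper81.PL
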