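import Pool.Agent.helper81.PL.Clip

/-!
# From polynomial time functions with a padding parameter to machines; the input word

Module `PAD` proves `theorem PAD [S1] : PAD_stmt`, module `INW` proves `INW1 .. INW6`.
-/

set_option autoImplicit false
set_option linter.dupNamespace false
set_option linter.unusedVariables false
set_option linter.unusedSectionVars false

namespace Pool.Agent.helper81.PL

open Pool.Agent.helper62 Prog Function Polynomial

/-- PAD: a polynomial time function of the input word `w` and of the number `C ^ k w` in unary is
computed by a machine in time polynomial in `C ^ k w + w.length`.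
Proof. The number `C ^ k w = (fun x => C * x)^[k w] 1`: use `S1.ITR` with `s = (fun x => C * x) : ℕ → ℕ`,
time `c.eval (sz x)`; its sum is at most `k w * (c.eval (2 * C ^ k w + 1) + 1)` (for `C = 0` treat the case
separately: the function `fun w => 0 ^ k w` is PT; or use `max`), and `k` is polynomially bounded
(`PT.nat_pb`). `CMP`, `PAR` give `CT (fun w => f (C ^ k w) w) t` with `t w ≤ D' * (C ^ k w + sz w + 1) ^ D'`
(a polynomial is bounded by such an expression), `sz w ≤ 4 * w.length + 1`. Then `S1.MAC`. -/
def PAD_stmt : Prop :=
  ∀ (C : ℕ) (k : List Bool → ℕ) (f : ℕ → List Bool → Bool), PT k →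
    PT (fun p : ℕ × List Bool => f p.1 p.2) →
    ∃ D : ℕ, ∀ (A : Type) (e : A → List Bool),
      MachineTime e (fun a => f (C ^ k (e a)) (e a))
        (fun a => D * (C ^ k (e a) + (e a).length + 1) ^ D)

/-! ### The input word -/

/-- The input word of a graph on the vertices `0, ..., n - 1` and a number `k`: `n` in unary, the
symbol `false`, the `n * n` bits of the adjacency matrix, row by row, and the binary digits of `k`. -/
def encG (n k : ℕ) (G : SimpleGraph (Fin n)) [DecidableRel G.Adj] : List Bool :=
  List.replicate n true ++ false :: ((List.finRange n).flatMap (fun i => (List.finRange n).map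
    (fun j => decide (G.Adj i j))) ++ k.bits)

/-- the number of vertices -/
def inN (w : List Bool) : ℕ :=
  ((List.range w.length).find? (fun i => !(w.getD i false))).getD w.length

/-- adjacency -/
def inA (w : List Bool) (i j : ℕ) : Bool := w.getD (inN w + 1 + (i * inN w + j)) false

/-- the number `min k (n * n)` -/
def inK (w : List Bool) : ℕ :=
  (w.drop (inN w + 1 + inN w * inN w)).reverse.foldl
    (fun a b => min (2 * a + (bif b then 1 else 0)) (inN w * inN w)) 0

def INW1_stmt : Prop := PT inN

def INW2_stmt : Prop := PT (fun p : List Bool × ℕ × ℕ => inA p.1 p.2.1 p.2.2)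

/-- (the fold has values at most `inN w * inN w`: `pt_foldl`) -/
def INW3_stmt : Prop := PT inK

def INW4_stmt : Prop :=
  ∀ (n k : ℕ) (G : SimpleGraph (Fin n)) [DecidableRel G.Adj], inN (encG n k G) = n

def INW5_stmt : Prop :=
  ∀ (n k : ℕ) (G : SimpleGraph (Fin n)) [DecidableRel G.Adj] (i j : Fin n),
    inA (encG n k G) i j = decide (G.Adj i j)

def INW6_stmt : Prop :=
  ∀ (n k : ℕ) (G : SimpleGraph (Fin n)) [DecidableRel G.Adj], inK (encG n k G) = min k (n * n)

def INW7_stmt : Prop :=
  ∀ (n k : ℕ) (G : SimpleGraph (Fin n)) [DecidableRel G.Adj],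
    (encG n k G).length ≤ n + 1 + n * n + k

end Pool.Agent.helper81.PL
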