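import Pool.Agent.helper81.PL.Small

/-!
# Polynomial time library: basic closure properties

The statements of stage 1 (`SpecA`) are collected in the class `S1`; everything is proved from an
instance of this class.
-/

set_option autoImplicit false
set_option linter.dupNamespace false
set_option linter.unusedVariables false
set_option linter.unusedSectionVars false

namespace Pool.Agent.helper81.PL

open Pool.Agent.helper62 Prog Function Polynomial

/-- The statements of stage 1. -/
class S1 : Prop where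
  PFX : PFX_stmt
  DUP : DUP_stmt
  PRS : PRS_stmt
  CST : CST_stmt
  PAR : PAR_stmt
  CAR : CAR_stmt
  CDR : CDR_stmt
  CND : CND_stmt
  EQT : EQT_stmt
  ITR : ITR_stmt
  SIZ : SIZ_stmt
  INP : INP_stmt
  OUT : OUT_stmt
  MAC : MAC_stmt

variable {α β γ δ : Type} [Rep α] [Rep β] [Rep γ] [Rep δ]

/-! ### Sizes -/

lemma sz_pos (a : α) : 1 ≤ sz a := by
  unfold sz cd
  cases Rep.rep a <;> simp [Tr.code]

@[simp] lemma sz_nat (n : ℕ) : sz n = 2 * n + 1 := by
  unfold sz cd
  change (natRep n).code.length = _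
  induction n with
  | zero => rfl
  | succ n ih => simp only [natRep, Tr.code, List.length_cons, List.length_append] at ih ⊢
                 rw [ih]; simp; omega

@[simp] lemma sz_prod (a : α) (b : β) : sz (a, b) = sz a + sz b + 1 := by
  unfold sz cd
  change (Tr.node (Rep.rep a) (Rep.rep b)).code.length = _
  simp [Tr.code]

@[simp] lemma sz_nil : sz ([] : List α) = 1 := rfl

@[simp] lemma sz_cons (a : α) (l : List α) : sz (a :: l) = sz a + sz l + 1 := by
  unfold sz cd
  change (Tr.node (Rep.rep a) (listRep l)).code.length = _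
  simp only [Tr.code, List.length_cons, List.length_append]
  rfl

lemma sz_list (l : List α) : sz l = (l.map sz).sum + l.length + 1 := by
  induction l with
  | nil => rfl
  | cons a l ih => rw [sz_cons, ih, List.map_cons, List.sum_cons, List.length_cons]; omega

lemma length_le_sz (l : List α) : l.length ≤ sz l := by rw [sz_list]; omega

lemma sz_le_of_mem {a : α} {l : List α} (h : a ∈ l) : sz a ≤ sz l := by
  rw [sz_list]
  have := List.single_le_sum (l := l.map sz) (fun _ _ => Nat.zero_le _) (sz a)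
    (List.mem_map_of_mem h)
  omega

@[simp] lemma sz_append (l l' : List α) : sz (l ++ l') + 1 = sz l + sz l' := by
  rw [sz_list, sz_list, sz_list, List.map_append, List.sum_append, List.length_append]; omega

@[simp] lemma sz_reverse (l : List α) : sz l.reverse = sz l := by
  rw [sz_list, sz_list, List.length_reverse, List.map_reverse, List.sum_reverse]

lemma sz_sublist {l l' : List α} (h : List.Sublist l l') : sz l ≤ sz l' := by
  rw [sz_list, sz_list]
  have h1 := h.length_le
  have h2 := (h.map sz).sum_le_sum (fun _ _ => Nat.zero_le _)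
  omega

lemma sz_list_le {l : List α} {n m : ℕ} (h1 : l.length ≤ n) (h2 : ∀ a ∈ l, sz a ≤ m) :
    sz l ≤ n * (m + 1) + 1 := by
  rw [sz_list]
  have h3 : (l.map sz).sum ≤ l.length * m := by
    have := List.sum_le_card_nsmul (l.map sz) m (by simpa using h2)
    simpa using this
  have h4 : l.length * m ≤ n * m := Nat.mul_le_mul_right _ h1
  have h5 : n * (m + 1) = n * m + n := by ring
  omega

@[simp] lemma sz_bool_le (b : Bool) : sz b ≤ 3 := by cases b <;> decide

@[simp] lemma sz_none : sz (none : Option α) = 1 := rfl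

@[simp] lemma sz_some (a : α) : sz (some a) = sz a + 2 := by
  unfold sz cd
  change (Tr.node .nil (Rep.rep a)).code.length = _
  simp [Tr.code]

lemma sz_option_le (o : Option α) (m : ℕ) (h : ∀ a ∈ o, sz a ≤ m) : sz o ≤ m + 2 := by
  cases o with
  | none => simp
  | some a => rw [sz_some]; have := h a rfl; omega

lemma sz_finset (s : Finset ℕ) : sz s = sz (s.sort (· ≤ ·)) := rfl

/-! ### Polynomially bounded functions -/

/-- `f` is bounded by a polynomial of the size of its argument. -/
def PB (f : α → ℕ) : Prop := ∃ c : Polynomial ℕ, ∀ a, f a ≤ c.eval (sz a)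

lemma PB.mono {f g : α → ℕ} (h : PB g) (hfg : ∀ a, f a ≤ g a) : PB f := by
  obtain ⟨c, h⟩ := h
  exact ⟨c, fun a => (hfg a).trans (h a)⟩

lemma PB.const (n : ℕ) : PB (fun _ : α => n) := ⟨(n : Polynomial ℕ), fun a => by simp⟩

lemma PB.size : PB (fun a : α => sz a) := ⟨X, fun a => by simp⟩

lemma PB.add {f g : α → ℕ} (hf : PB f) (hg : PB g) : PB (fun a => f a + g a) := by
  obtain ⟨c, hf⟩ := hf
  obtain ⟨d, hg⟩ := hg
  exact ⟨c + d, fun a => by rw [eval_add]; exact add_le_add (hf a) (hg a)⟩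

lemma PB.mul {f g : α → ℕ} (hf : PB f) (hg : PB g) : PB (fun a => f a * g a) := by
  obtain ⟨c, hf⟩ := hf
  obtain ⟨d, hg⟩ := hg
  exact ⟨c * d, fun a => by rw [eval_mul]; exact Nat.mul_le_mul (hf a) (hg a)⟩

lemma PB.poly {f : α → ℕ} (hf : PB f) (d : Polynomial ℕ) : PB (fun a => d.eval (f a)) := by
  obtain ⟨c, hf⟩ := hf
  exact ⟨d.comp c, fun a => by
    rw [eval_comp]; exact Pool.Agent.H54.PT.pe_mono _ (hf a)⟩

lemma PB.pow {f : α → ℕ} (hf : PB f) (n : ℕ) : PB (fun a => f a ^ n) := by
  have := hf.poly (X ^ n)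
  simpa using this

/-- Time bounds may be given by polynomially bounded functions. -/
lemma PT.of_pb {f : α → β} {t : α → ℕ} (h : CT f t) (ht : PB t) : PT f := by
  obtain ⟨c, hc⟩ := ht
  exact ⟨c, fun b => by
    obtain ⟨p, hp⟩ := h b
    exact ⟨p, fun a S h1 h2 => (hp a S h1 h2).mono (hc a)⟩⟩

lemma PT.pb {f : α → β} (h : PT f) : ∃ t : α → ℕ, CT f t ∧ PB t := by
  obtain ⟨c, h⟩ := h
  exact ⟨_, h, ⟨c, fun a => le_rfl⟩⟩

/-- The value of a polynomial time function has polynomial size. -/
lemma PT.size {f : α → β} (h : PT f) : PB (fun a => sz (f a)) := by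
  obtain ⟨t, h1, h2⟩ := h.pb
  exact (PB.size.add h2).mono (fun a => LEN α β f t h1 a)

lemma PB.comp {g : β → ℕ} {f : α → β} (hg : PB g) (hf : PT f) : PB (fun a => g (f a)) := by
  obtain ⟨d, hd⟩ := hg
  exact (hf.size.poly d).mono (fun a => hd _)

lemma PT.nat_pb {f : α → ℕ} (h : PT f) : PB f :=
  h.size.mono (fun a => by rw [sz_nat]; omega)

/-! ### Basic closure properties -/

section

variable [S1]

@[fun_prop] theorem PT.id : PT (fun a : α => a) := PT.of_pb (IDT α) (PB.const 1)

@[fun_prop] theorem PT.const (x : β) : PT (fun _ : α => x) := by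
  obtain ⟨c, h⟩ := S1.CST α β x
  exact PT.of_pb h (((PB.const 2).mul PB.size).add (PB.const c))

@[fun_prop] theorem PT.comp {g : β → γ} {f : α → β} (hg : PT g) (hf : PT f) :
    PT (fun a => g (f a)) := by
  obtain ⟨t, h1, h2⟩ := hf.pb
  obtain ⟨t', h3, h4⟩ := hg.pb
  exact PT.of_pb (CMP α β γ f g t t' h1 h3) (h2.add (h4.comp hf))

@[fun_prop] theorem PT.pair {f : α → β} {g : α → γ} (hf : PT f) (hg : PT g) :
    PT (fun a => (f a, g a)) := by
  obtain ⟨t, h1, h2⟩ := hf.pb
  obtain ⟨t', h3, h4⟩ := hg.pb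
  obtain ⟨c, h⟩ := S1.PAR
  exact PT.of_pb (h α β γ f g t t' h1 h3)
    ((h2.add h4).add ((PB.const c).mul ((PB.size.add hf.size).add hg.size)))

/-- Change of representation. -/
theorem PT.of_rep {α' β' : Type} [Rep α'] [Rep β'] {f : α → β} {g : α' → β'} (φ : α → α')
    (hg : PT g) (e1 : ∀ a, Rep.rep (φ a) = Rep.rep a)
    (e2 : ∀ a, Rep.rep (g (φ a)) = Rep.rep (f a)) : PT f := by
  obtain ⟨t, h1, h2⟩ := hg.pb
  refine PT.of_pb (REP α β α' β' f g φ t h1 e1 e2) ?_
  obtain ⟨c, hc⟩ := h2
  exact ⟨c, fun a => (hc (φ a)).trans (le_of_eq (by unfold sz cd; rw [e1]))⟩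

/-- Functions given on trees. -/
theorem PT.of_tr {f : α → β} {g : Tr → Tr} (hg : PT g)
    (e : ∀ a, g (Rep.rep a) = Rep.rep (f a)) : PT f :=
  PT.of_rep (Rep.rep : α → Tr) hg (fun _ => rfl) e

theorem pt_car : PT Tr.car := by
  obtain ⟨c, h⟩ := S1.CAR
  exact PT.of_pb h ((PB.const c).mul PB.size)

theorem pt_cdr : PT Tr.cdr := by
  obtain ⟨c, h⟩ := S1.CDR
  exact PT.of_pb h ((PB.const c).mul PB.size)

@[fun_prop] theorem pt_fst : PT (Prod.fst : α × β → α) := PT.of_tr pt_car (fun _ => rfl)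

@[fun_prop] theorem pt_snd : PT (Prod.snd : α × β → β) := PT.of_tr pt_cdr (fun _ => rfl)

theorem PT.cond_of {r : α → Bool} {f g : α → β} (hr : PT r) (hf : PT f) (hg : PT g) :
    PT (fun a => bif r a then f a else g a) := by
  obtain ⟨t, h1, h2⟩ := hr.pb
  obtain ⟨t1, h3, h4⟩ := hf.pb
  obtain ⟨t2, h5, h6⟩ := hg.pb
  obtain ⟨c, h⟩ := S1.CND
  refine PT.of_pb (h α β r f g t t1 t2 h1 h3 h5)
    (((h2.add (h4.add h6)).add ((PB.const c).mul PB.size)).mono fun a => ?_)
  cases r a <;> simp only [cond_true, cond_false] <;> omega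

@[fun_prop] theorem pt_cond : PT (fun p : Bool × β × β => bif p.1 then p.2.1 else p.2.2) :=
  PT.cond_of (by fun_prop) (by fun_prop) (by fun_prop)

/-- The size in unary. -/
@[fun_prop] theorem pt_sz : PT (fun a : α => sz a) := by
  obtain ⟨c, h⟩ := S1.SIZ
  exact PT.of_pb (h α) ((PB.const c).mul PB.size)

end

end Pool.Agent.helper81.PL
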