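import Pool.Agent.H54.PT.Final

/-!
# Polynomial time library: definitions (project bs:, machine part)

Data are binary trees, coded by words of Booleans (preorder). `CT f t` : `f` is computed by the
stack programs of `Pool.Agent.helper62.Prog` in time `t`. `PT f` : in polynomial time.
-/

set_option autoImplicit false
set_option linter.dupNamespace false
set_option linter.unusedVariables false

namespace Pool.Agent.helper81.PL

open Pool.Agent.helper62 Prog Function

/-- Binary trees. -/
inductive Tr where
  | nil : Tr
  | node (a b : Tr) : Tr
deriving DecidableEq

/-- The code of a tree: preorder. -/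
def Tr.code : Tr → List Bool
  | .nil => [false]
  | .node a b => true :: (a.code ++ b.code)

/-- first subtree (`nil` for `nil`) -/
def Tr.car : Tr → Tr
  | .nil => .nil
  | .node a _ => a

/-- second subtree (`nil` for `nil`) -/
def Tr.cdr : Tr → Tr
  | .nil => .nil
  | .node _ b => b

/-- Types whose elements are represented by trees. -/
class Rep (α : Type) where
  rep : α → Tr

/-- Faithful representations. -/
class RepInj (α : Type) extends Rep α where
  inj : Function.Injective rep

/-- the code word of an element -/
def cd {α : Type} [Rep α] (a : α) : List Bool := (Rep.rep a).code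

/-- the size of an element: the length of its code word -/
def sz {α : Type} [Rep α] (a : α) : ℕ := (cd a).length

variable {α β γ δ : Type} [Rep α] [Rep β] [Rep γ] [Rep δ]

/-- `p` computes `f` at the stack `b` in time `t`: the argument is read from the stack `b`, the
value is written there, the stacks above `b` are empty before and after, the stacks below `b` are
not changed. -/
def Calc (f : α → β) (t : α → ℕ) (b : ℕ) (p : Prog ℕ) : Prop :=
  ∀ (a : α) (S : ℕ → List Bool), S b = cd a → (∀ i, b < i → S i = []) →
    Runs p S (update S b (cd (f a))) (t a)

/-- `f` is computable in time `t`. -/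
def CT (f : α → β) (t : α → ℕ) : Prop := ∀ b, ∃ p, Calc f t b p

/-- `f` is computable in polynomial time. -/
@[fun_prop]
def PT (f : α → β) : Prop := ∃ c : Polynomial ℕ, CT f (fun a => c.eval (sz a))

/-! ### Representations -/

instance : Rep Tr := ⟨id⟩

instance : Rep Unit := ⟨fun _ => .nil⟩

instance : Rep Bool := ⟨fun b => if b then .node .nil .nil else .nil⟩

/-- unary numbers -/
def natRep : ℕ → Tr
  | 0 => .nil
  | n + 1 => .node .nil (natRep n)

instance : Rep ℕ := ⟨natRep⟩

instance : Rep (α × β) := ⟨fun p => .node (Rep.rep p.1) (Rep.rep p.2)⟩

/-- lists -/
def listRep : List α → Tr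
  | [] => .nil
  | a :: l => .node (Rep.rep a) (listRep l)

instance : Rep (List α) := ⟨listRep⟩

instance : Rep (Option α) := ⟨fun o => match o with
  | none => .nil
  | some a => .node .nil (Rep.rep a)⟩

/-- Finite sets of numbers are represented by their increasing lists. -/
noncomputable instance : Rep (Finset ℕ) := ⟨fun s => Rep.rep (s.sort (· ≤ ·))⟩

/-! ### Auxiliary programs -/

/-- Copy the stack `b` to the empty stack `d`; the stack `d + 1` is used and must be empty. -/
def dup (b d : ℕ) : Prog ℕ :=
  .seq (pour b (d + 1)) (.loop (d + 1) (.seq (.push b false) (.push d false))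
    (.seq (.push b true) (.push d true)))

/-- Read the code of one tree from the stack `b`, and write it (reversed) on the stack `b + 2`.
The stack `b + 1` must contain one symbol `true`. -/
def prs (b : ℕ) : Prog ℕ :=
  .loop (b + 1) .skip (.ifp b .skip (.push (b + 2) false)
    (.seq (.push (b + 2) true) (.seq (.push (b + 1) true) (.push (b + 1) true))))

/-! ### Machines -/

/-- `f` is computed by a two-alphabet-symbol `FinTM2` machine of Mathlib: started with the word
`e a` it halts after at most `t a` steps with the one letter word `[f a]`. -/
def MachineTime {A : Type} (e : A → List Bool) (f : A → Bool) (t : A → ℕ) : Prop :=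
  ∃ M : Turing.TM2ComputableAux Bool Bool, ∀ a,
    Nonempty (Turing.TM2OutputsInTime M.tm (List.map M.inputAlphabet.invFun (e a))
      (some (List.map M.outputAlphabet.invFun [f a])) (t a))

end Pool.Agent.helper81.PL
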