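import Pool.Agent.helper81.PL.ListB

/-!
# Polynomial time library: finite sets of numbers
-/

set_option autoImplicit false
set_option linter.dupNamespace false
set_option linter.unusedVariables false
set_option linter.unusedSectionVars false

namespace Pool.Agent.helper81.PL

open Pool.Agent.helper62 Prog Function Polynomial

variable {α β γ δ : Type} [Rep α] [Rep β] [Rep γ] [Rep δ]

/-- membership in a finite set -/
def fmem {α : Type} [DecidableEq α] (a : α) (s : Finset α) : Bool := decide (a ∈ s)

/-- inclusion -/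
def fsub {α : Type} [DecidableEq α] (s t : Finset α) : Bool := decide (s ⊆ t)

lemma sort_eq_filter {s : Finset ℕ} {N : ℕ} (h : ∀ i ∈ s, i < N) (p : ℕ → Bool)
    (hp : ∀ i < N, p i = true ↔ i ∈ s) :
    s.sort = (List.range N).filter p := by
  apply List.Perm.eq_of_sortedLE (Finset.sortedLT_sort s).sortedLE
  · exact (List.Pairwise.filter _ (List.sortedLT_range N).sortedLE.pairwise).sortedLE
  · rw [List.perm_ext_iff_of_nodup (Finset.sort_nodup s _) (List.nodup_range.filter _)]
    intro i
    rw [Finset.mem_sort, List.mem_filter, List.mem_range]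
    constructor
    · intro hi; exact ⟨h i hi, (hp i (h i hi)).mpr hi⟩
    · rintro ⟨h1, h2⟩; exact (hp i h1).mp h2

section

variable [S1]

@[fun_prop] theorem pt_sort : PT (fun s : Finset ℕ => s.sort) :=
  PT.of_rep (g := fun l : List ℕ => l) (fun s : Finset ℕ => s.sort) PT.id (fun _ => rfl)
    (fun _ => rfl)

@[fun_prop] theorem pt_toFinset : PT (fun l : List ℕ => l.toFinset) := by
  refine PT.of_rep (g := fun l : List ℕ => (List.range (l.sum + 1)).filter (fun i => memb i l))
    (fun l => l) (by fun_prop) (fun _ => rfl) (fun l => ?_)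
  change Rep.rep _ = Rep.rep (l.toFinset.sort)
  rw [sort_eq_filter (N := l.sum + 1) (fun i hi => ?_) (fun i => memb i l) (fun i hi => ?_)]
  · have := List.single_le_sum (l := l) (fun _ _ => Nat.zero_le _) i (List.mem_toFinset.mp hi)
    omega
  · simp [memb]

@[fun_prop] theorem pt_fmem : PT (fun p : ℕ × Finset ℕ => fmem p.1 p.2) := by
  have h : PT (fun p : ℕ × Finset ℕ => memb p.1 p.2.sort) := by fun_prop
  convert h using 2 with p
  simp [fmem, memb]

@[fun_prop] theorem pt_fsub : PT (fun p : Finset ℕ × Finset ℕ => fsub p.1 p.2) := by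
  have h : PT (fun p : Finset ℕ × Finset ℕ => p.1.sort.all (fun x => fmem x p.2)) := by fun_prop
  convert h using 2 with p
  rw [Bool.eq_iff_iff]
  simp [fsub, fmem, Finset.subset_iff]

@[fun_prop] theorem pt_card : PT (fun s : Finset ℕ => s.card) := by
  have h : PT (fun s : Finset ℕ => s.sort.length) := by fun_prop
  convert h using 2 with p
  simp

@[fun_prop] theorem pt_funion : PT (fun p : Finset ℕ × Finset ℕ => p.1 ∪ p.2) := by
  have h : PT (fun p : Finset ℕ × Finset ℕ => (p.1.sort ++ p.2.sort).toFinset) := by fun_prop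
  convert h using 2 with p
  simp

/-- Filters, with Boolean predicates. -/
@[fun_prop] theorem pt_ffilter {f : α → ℕ → Bool} {s : α → Finset ℕ}
    (hf : PT (fun p : α × ℕ => f p.1 p.2)) (hs : PT s) :
    PT (fun a => (s a).filter (fun x => f a x = true)) := by
  have h : PT (fun a => ((s a).sort.filter (f a)).toFinset) := by fun_prop
  convert h using 2 with a
  ext x
  simp

@[fun_prop] theorem pt_finter : PT (fun p : Finset ℕ × Finset ℕ => p.1 ∩ p.2) := by
  have h : PT (fun p : Finset ℕ × Finset ℕ => (p.1.sort.filter (fun x => fmem x p.2)).toFinset) := by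
    fun_prop
  convert h using 2 with p
  ext x
  simp [fmem]

@[fun_prop] theorem pt_fsdiff : PT (fun p : Finset ℕ × Finset ℕ => p.1 \ p.2) := by
  have h : PT (fun p : Finset ℕ × Finset ℕ => (p.1.sort.filter (fun x => !fmem x p.2)).toFinset) := by
    fun_prop
  convert h using 2 with p
  ext x
  simp [fmem]

@[fun_prop] theorem pt_fsingleton : PT (fun n : ℕ => ({n} : Finset ℕ)) := by
  have h : PT (fun n : ℕ => ([n] : List ℕ).toFinset) := by fun_prop
  convert h using 2 with p
  simp

@[fun_prop] theorem pt_finsert : PT (fun p : ℕ × Finset ℕ => insert p.1 p.2) := by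
  have h : PT (fun p : ℕ × Finset ℕ => {p.1} ∪ p.2) := by fun_prop
  convert h using 2 with p
  rw [Finset.insert_eq]

@[fun_prop] theorem pt_ferase : PT (fun p : Finset ℕ × ℕ => p.1.erase p.2) := by
  have h : PT (fun p : Finset ℕ × ℕ => p.1 \ {p.2}) := by fun_prop
  convert h using 2 with p
  rw [Finset.sdiff_singleton_eq_erase]

@[fun_prop] theorem pt_frange : PT (fun n : ℕ => Finset.range n) := by
  have h : PT (fun n : ℕ => (List.range n).toFinset) := by fun_prop
  convert h using 2 with n
  ext x
  simp

@[fun_prop] theorem pt_fimage {f : α → ℕ → ℕ} {s : α → Finset ℕ}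
    (hf : PT (fun p : α × ℕ => f p.1 p.2)) (hs : PT s) :
    PT (fun a => (s a).image (f a)) := by
  have h : PT (fun a => ((s a).sort.map (f a)).toFinset) := by fun_prop
  convert h using 2 with a
  ext x
  simp

@[fun_prop] theorem pt_fbiUnion {f : α → ℕ → Finset ℕ} {s : α → Finset ℕ}
    (hf : PT (fun p : α × ℕ => f p.1 p.2)) (hs : PT s) :
    PT (fun a => (s a).biUnion (f a)) := by
  have h : PT (fun a => ((s a).sort.flatMap (fun x => (f a x).sort)).toFinset) := by fun_prop
  convert h using 2 with a
  ext x
  simp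

/-- Sums over finite sets. -/
@[fun_prop] theorem pt_fsum {f : α → ℕ → ℕ} {s : α → Finset ℕ}
    (hf : PT (fun p : α × ℕ => f p.1 p.2)) (hs : PT s) :
    PT (fun a => ∑ x ∈ s a, f a x) := by
  have h : PT (fun a => ((s a).sort.map (f a)).sum) := by fun_prop
  convert h using 2 with a
  rw [← List.sum_toFinset _ (Finset.sort_nodup _ _), Finset.sort_toFinset]

/-- union of a list of sets -/
def unions (l : List (Finset ℕ)) : Finset ℕ := (l.flatMap (fun s => s.sort)).toFinset

omit [S1] in
@[simp] lemma mem_unions {l : List (Finset ℕ)} {x : ℕ} : x ∈ unions l ↔ ∃ s ∈ l, x ∈ s := by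
  simp [unions]

@[fun_prop] theorem pt_unions : PT unions := by
  unfold unions
  fun_prop

end

end Pool.Agent.helper81.PL
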