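import Pool.Agent.helper81.PL.Base

/-!
# Polynomial time library: iteration, folds, first functions on lists, numbers, options
-/

set_option autoImplicit false
set_option linter.dupNamespace false
set_option linter.unusedVariables false
set_option linter.unusedSectionVars false

namespace Pool.Agent.helper81.PL

open Pool.Agent.helper62 Prog Function Polynomial

variable {α β γ δ : Type} [Rep α] [Rep β] [Rep γ] [Rep δ]

/-! ### Wrappers for decidable relations -/

/-- `x` is the empty tree -/
def isNil (x : Tr) : Bool := decide (x = Tr.nil)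

/-- equality -/
def eqb {α : Type} [DecidableEq α] (a b : α) : Bool := decide (a = b)

/-! ### Faithful representations -/

instance : RepInj Tr := ⟨fun _ _ h => h⟩

instance : RepInj Unit := ⟨fun _ _ _ => rfl⟩

instance : RepInj Bool := ⟨fun a b h => by
  cases a <;> cases b <;> simp [Rep.rep] at h ⊢⟩

lemma natRep_inj : Function.Injective natRep := by
  intro n
  induction n with
  | zero => intro m h; cases m with
    | zero => rfl
    | succ m => simp [natRep] at h
  | succ n ih => intro m h; cases m with
    | zero => simp [natRep] at h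
    | succ m => simp only [natRep, Tr.node.injEq, true_and] at h; rw [ih h]

instance : RepInj ℕ := ⟨natRep_inj⟩

instance {α β : Type} [RepInj α] [RepInj β] : RepInj (α × β) := ⟨fun a b h => by
  obtain ⟨a1, a2⟩ := a
  obtain ⟨b1, b2⟩ := b
  change Tr.node (Rep.rep a1) (Rep.rep a2) = Tr.node (Rep.rep b1) (Rep.rep b2) at h
  rw [Tr.node.injEq] at h
  rw [RepInj.inj h.1, RepInj.inj h.2]⟩

lemma listRep_inj {α : Type} [RepInj α] : Function.Injective (listRep : List α → Tr) := by
  intro l
  induction l with
  | nil => intro m h; cases m with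
    | nil => rfl
    | cons b m => simp [listRep] at h
  | cons a l ih => intro m h; cases m with
    | nil => simp [listRep] at h
    | cons b m =>
      simp only [listRep, Tr.node.injEq] at h
      rw [RepInj.inj h.1, ih h.2]

instance {α : Type} [RepInj α] : RepInj (List α) := ⟨listRep_inj⟩

instance {α : Type} [RepInj α] : RepInj (Option α) := ⟨fun a b h => by
  cases a <;> cases b
  · rfl
  · change Tr.nil = Tr.node _ _ at h; cases h
  · change Tr.node _ _ = Tr.nil at h; cases h
  · rename_i a b
    change Tr.node _ (Rep.rep a) = Tr.node _ (Rep.rep b) at h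
    rw [Tr.node.injEq] at h
    rw [RepInj.inj h.2]⟩

noncomputable instance : RepInj (Finset ℕ) := ⟨fun s t h => by
  have h1 : s.sort (· ≤ ·) = t.sort (· ≤ ·) := listRep_inj h
  rw [← Finset.sort_toFinset (r := (· ≤ ·)) s, h1, Finset.sort_toFinset]⟩

section

variable [S1]

/-! ### Equality -/

theorem pt_tr_eq : PT (fun p : Tr × Tr => decide (p.1 = p.2)) := by
  obtain ⟨c, h⟩ := S1.EQT
  exact PT.of_pb h ((PB.const c).mul PB.size)

/-- Equality of elements of types with a faithful representation. -/
@[fun_prop] theorem pt_eqb {α : Type} [RepInj α] [DecidableEq α] :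
    PT (fun p : α × α => eqb p.1 p.2) := by
  refine PT.of_rep (fun p : α × α => ((Rep.rep p.1, Rep.rep p.2) : Tr × Tr)) pt_tr_eq
    (fun _ => rfl) (fun a => ?_)
  unfold eqb
  congr 1
  exact decide_eq_decide.mpr RepInj.inj.eq_iff

@[fun_prop] theorem pt_isNil : PT isNil := by
  have : PT (fun x : Tr => eqb x Tr.nil) := by fun_prop
  exact this

/-- A tree valued conditional gives conditionals for all types. -/
theorem pt_ite_tr {f : α → β} {r : α → Bool} {g h : α → Tr} (hr : PT r) (hg : PT g) (hh : PT h)
    (e : ∀ a, Rep.rep (f a) = bif r a then g a else h a) : PT f :=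
  PT.of_rep (g := fun a : α => bif r a then g a else h a) (fun a => a) (PT.cond_of hr hg hh)
    (fun _ => rfl) (fun a => (e a).symm)

/-- The tree of an element. -/
@[fun_prop] theorem pt_rep : PT (Rep.rep : α → Tr) := PT.of_tr PT.id (fun _ => rfl)

theorem pt_node {f g : α → Tr} (hf : PT f) (hg : PT g) : PT (fun a => Tr.node (f a) (g a)) :=
  PT.of_rep (g := fun a : α => (f a, g a)) (fun a => a) (PT.pair hf hg) (fun _ => rfl)
    (fun _ => rfl)

/-- A function is determined by its tree. -/
theorem PT.of_rep' {f : α → β} (h : PT (fun a => Rep.rep (f a))) : PT f :=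
  PT.of_rep (fun a => a) h (fun _ => rfl) (fun _ => rfl)

/-! ### First functions -/

@[fun_prop] theorem pt_cons : PT (fun p : α × List α => p.1 :: p.2) :=
  PT.of_tr PT.id (fun _ => rfl)

@[fun_prop] theorem pt_tail : PT (fun l : List α => l.tail) :=
  PT.of_tr pt_cdr (fun l => by cases l <;> rfl)

@[fun_prop] theorem pt_isEmpty : PT (fun l : List α => l.isEmpty) :=
  PT.of_rep (Rep.rep : List α → Tr) pt_isNil (fun _ => rfl) (fun l => by cases l <;> rfl)

@[fun_prop] theorem pt_headD : PT (fun p : List α × α => p.1.headD p.2) :=
  pt_ite_tr (r := fun p => p.1.isEmpty) (g := fun p => Rep.rep p.2)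
    (h := fun p => Tr.car (Rep.rep p.1)) (by fun_prop) (by fun_prop)
    (PT.comp pt_car (by fun_prop)) (fun p => by
      obtain ⟨l, a⟩ := p
      cases l <;> rfl)

@[fun_prop] theorem pt_some : PT (fun a : α => some a) := by
  apply PT.of_rep'
  exact pt_node (PT.const _) pt_rep

@[fun_prop] theorem pt_isSome : PT (fun o : Option α => o.isSome) := by
  have h : PT (fun o : Option α => !(isNil (Rep.rep o))) := by
    have : PT (fun o : Option α => bif isNil (Rep.rep o) then false else true) := by fun_prop
    convert this using 2 with o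
    cases isNil (Rep.rep o) <;> rfl
  convert h using 2 with o
  cases o <;> rfl

@[fun_prop] theorem pt_optGetD : PT (fun p : Option α × α => p.1.getD p.2) :=
  pt_ite_tr (r := fun p => p.1.isSome) (g := fun p => Tr.cdr (Rep.rep p.1))
    (h := fun p => Rep.rep p.2) (by fun_prop) (PT.comp pt_cdr (by fun_prop)) (by fun_prop)
    (fun p => by obtain ⟨o, a⟩ := p; cases o <;> rfl)

/-- Elimination of options. -/
@[fun_prop] theorem pt_optElim {o : α → Option β} {f : α → γ} {g : α → β → γ} (ho : PT o)
    (hf : PT f) (hg : PT (fun p : α × β => g p.1 p.2)) :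
    PT (fun a => (o a).elim (f a) (g a)) := by
  rcases isEmpty_or_nonempty β with h | ⟨⟨d⟩⟩
  · have e : (fun a => (o a).elim (f a) (g a)) = f := by
      funext a
      cases h1 : o a with
      | none => rfl
      | some b => exact (h.false b).elim
    rw [e]; exact hf
  · have e : (fun a => (o a).elim (f a) (g a)) =
        fun a => bif (o a).isSome then (fun p : α × β => g p.1 p.2) (a, (o a).getD d) else f a := by
      funext a
      cases o a <;> rfl
    rw [e]
    exact PT.cond_of (by fun_prop) (PT.comp hg (by fun_prop)) hf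

@[fun_prop] theorem pt_optMap {o : α → Option β} {g : α → β → γ} (ho : PT o)
    (hg : PT (fun p : α × β => g p.1 p.2)) : PT (fun a => (o a).map (g a)) := by
  have : PT (fun a => (o a).elim none (fun b => some (g a b))) := by fun_prop
  convert this using 2 with a
  cases o a <;> rfl

@[fun_prop] theorem pt_optBind {o : α → Option β} {g : α → β → Option γ} (ho : PT o)
    (hg : PT (fun p : α × β => g p.1 p.2)) : PT (fun a => (o a).bind (g a)) := by
  have : PT (fun a => (o a).elim none (fun b => g a b)) := by fun_prop
  convert this using 2 with a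
  cases o a <;> rfl

@[fun_prop] theorem pt_head? : PT (fun l : List α => l.head?) :=
  pt_ite_tr (r := fun l => l.isEmpty) (g := fun _ => Tr.nil)
    (h := fun l => Tr.node Tr.nil (Tr.car (Rep.rep l))) (by fun_prop) (by fun_prop)
    (pt_node (by fun_prop) (PT.comp pt_car (by fun_prop))) (fun l => by cases l <;> rfl)

@[fun_prop] theorem pt_succ : PT (fun n : ℕ => n + 1) := by
  apply PT.of_rep'
  exact pt_node (PT.const _) pt_rep

@[fun_prop] theorem pt_pred : PT (fun n : ℕ => n - 1) :=
  PT.of_tr pt_cdr (fun n => by cases n <;> rfl)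

@[fun_prop] theorem pt_not : PT (fun b : Bool => !b) := by
  have : PT (fun o : Bool => bif o then false else true) := by fun_prop
  convert this using 2 with o
  cases o <;> rfl

@[fun_prop] theorem pt_and : PT (fun p : Bool × Bool => p.1 && p.2) := by
  have : PT (fun p : Bool × Bool => bif p.1 then p.2 else false) := by fun_prop
  convert this using 2 with o
  cases o.1 <;> rfl

@[fun_prop] theorem pt_or : PT (fun p : Bool × Bool => p.1 || p.2) := by
  have : PT (fun p : Bool × Bool => bif p.1 then true else p.2) := by fun_prop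
  convert this using 2 with o
  cases o.1 <;> rfl

/-! ### Iteration and folds -/

/-- Iteration, if all values have polynomial size. -/
theorem pt_iter {n : α → ℕ} {g : α → β} {s : α → β → β} {c : α → ℕ} (hn : PT n) (hg : PT g)
    (hs : PT (fun p : α × β => s p.1 p.2)) (hc : PB c)
    (hb : ∀ a, ∀ i ≤ n a, sz ((s a)^[i] (g a)) ≤ c a) : PT (fun a => (s a)^[n a] (g a)) := by
  have hS : PT (fun p : α × β => (p.1, s p.1 p.2)) := by fun_prop
  obtain ⟨q, hq⟩ := hS
  obtain ⟨C, hI⟩ := S1.ITR
  have h1 := hI (α × β) _ _ hq
  have hit : ∀ (i : ℕ) (p : α × β), (fun p : α × β => (p.1, s p.1 p.2))^[i] p =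
      (p.1, (s p.1)^[i] p.2) := by
    intro i
    induction i with
    | zero => intro p; rfl
    | succ i ih => intro p; rw [iterate_succ_apply, ih, iterate_succ_apply]
  have hp : PT (fun a => (n a, (a, g a))) := by fun_prop
  obtain ⟨t, ht, htb⟩ := hp.pb
  have h2 := CMP α (ℕ × α × β) (α × β) (fun a => (n a, (a, g a)))
    (fun p : ℕ × α × β => (fun p : α × β => (p.1, s p.1 p.2))^[p.1] p.2) _ _ ht h1
  have h3 : PT (fun a => (fun p : α × β => (p.1, s p.1 p.2))^[n a] (a, g a)) := by
    refine PT.of_pb h2 (PB.mono
      ((htb.add (hn.nat_pb.mul ((((PB.size.add hc).add (PB.const 1)).poly q).add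
        (PB.const 1)))).add ((PB.const C).mul (hp.size.add
          ((PB.size.add hc).add (PB.const 1))))) fun a => ?_)
    have h4 : ∀ i ≤ n a, sz ((fun p : α × β => (p.1, s p.1 p.2))^[i] (a, g a)) ≤
        sz a + c a + 1 := by
      intro i hi
      rw [hit, sz_prod]
      have := hb a i hi
      simp only
      omega
    have h5 : ∑ i ∈ Finset.range (n a), (q.eval (sz ((fun p : α × β =>
        (p.1, s p.1 p.2))^[i] (a, g a))) + 1) ≤ n a * (q.eval (sz a + c a + 1) + 1) := by
      have := Finset.sum_le_card_nsmul (Finset.range (n a)) (fun i => q.eval (sz ((fun p : α × β =>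
        (p.1, s p.1 p.2))^[i] (a, g a))) + 1) (q.eval (sz a + c a + 1) + 1) (fun i hi => by
          have := Pool.Agent.H54.PT.pe_mono q (h4 i (Finset.mem_range.mp hi).le)
          omega)
      simpa using this
    have h6 := h4 (n a) le_rfl
    have h7 : C * (sz (n a, (a, g a)) + sz ((fun p : α × β => (p.1, s p.1 p.2))^[n a] (a, g a))) ≤
        C * (sz (n a, (a, g a)) + (sz a + c a + 1)) :=
      Nat.mul_le_mul_left _ (by omega)
    simp only at h5 h7 ⊢
    omega
  have h4 : PT (fun a => ((fun p : α × β => (p.1, s p.1 p.2))^[n a] (a, g a)).2) :=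
    PT.comp pt_snd h3
  convert h4 using 2 with a
  rw [hit]

/-- Folds, if all values have polynomial size. -/
theorem pt_foldl {l : α → List β} {g : α → γ} {s : α → γ → β → γ} {c : α → ℕ} (hl : PT l)
    (hg : PT g) (hs : PT (fun p : α × γ × β => s p.1 p.2.1 p.2.2)) (hc : PB c)
    (hb : ∀ a, ∀ i ≤ (l a).length, sz (((l a).take i).foldl (s a) (g a)) ≤ c a) :
    PT (fun a => (l a).foldl (s a) (g a)) := by
  rcases isEmpty_or_nonempty β with h | ⟨⟨d⟩⟩
  · have e : (fun a => (l a).foldl (s a) (g a)) = g := by
      funext a
      cases h1 : l a with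
      | nil => rfl
      | cons b t => exact (h.false b).elim
    rw [e]; exact hg
  · have hit : ∀ (a : α) (i : ℕ) (p : List β × γ), ((fun a (p : List β × γ) => (p.1.tail,
        bif p.1.isEmpty then p.2 else s a p.2 (p.1.headD d))) a)^[i] p =
        (p.1.drop i, (p.1.take i).foldl (s a) p.2) := by
      intro a i
      induction i with
      | zero => intro p; rfl
      | succ i ih =>
        intro p
        obtain ⟨r, x⟩ := p
        rw [iterate_succ_apply, ih]
        cases r with
        | nil => simp
        | cons b r => simp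
    have h1 : PT (fun a => ((fun a (p : List β × γ) => (p.1.tail,
        bif p.1.isEmpty then p.2 else s a p.2 (p.1.headD d))) a)^[sz (l a)] (l a, g a)) := by
      refine pt_iter (c := fun a => sz (l a) + c a + 1) (by fun_prop) (by fun_prop) ?_
        ((hl.size.add hc).add (PB.const 1)) (fun a i hi => ?_)
      · refine PT.pair (by fun_prop) (PT.cond_of (by fun_prop) (by fun_prop) ?_)
        exact PT.comp (f := fun p : α × (List β × γ) => (p.1, (p.2.2, p.2.1.headD d))) hs
          (by fun_prop)
      · rw [hit, sz_prod]
        have h2 := sz_sublist (List.drop_sublist i (l a))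
        have h3 : ((l a).take i) = (l a).take (min i (l a).length) := by
          rcases le_total i (l a).length with h | h
          · rw [min_eq_left h]
          · rw [min_eq_right h, List.take_of_length_le h, List.take_length]
        have h4 := hb a (min i (l a).length) (min_le_right _ _)
        rw [← h3] at h4
        simp only
        omega
    have h2 := PT.comp pt_snd h1
    convert h2 using 2 with a
    rw [hit]
    simp only
    rw [List.take_of_length_le (length_le_sz _)]

/-- Folds whose steps increase the size by a bounded amount. -/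
theorem pt_foldl_add {l : α → List β} {g : α → γ} {s : α → γ → β → γ} {c : α → ℕ} (hl : PT l)
    (hg : PT g) (hs : PT (fun p : α × γ × β => s p.1 p.2.1 p.2.2)) (hc : PB c)
    (hb : ∀ a x, ∀ b ∈ l a, sz (s a x b) ≤ sz x + c a) :
    PT (fun a => (l a).foldl (s a) (g a)) := by
  refine pt_foldl hl hg hs (c := fun a => sz (g a) + sz (l a) * c a)
    (hg.size.add (hl.size.mul hc)) (fun a i hi => ?_)
  have h1 : ∀ (l' : List β) (x : γ), (∀ b ∈ l', b ∈ l a) →
      sz (l'.foldl (s a) x) ≤ sz x + l'.length * c a := by
    intro l'
    induction l' with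
    | nil => intro x _; simp
    | cons b l' ih =>
      intro x hx
      rw [List.foldl_cons, List.length_cons]
      have h2 := ih (s a x b) (fun b' hb' => hx b' (List.mem_cons_of_mem _ hb'))
      have h3 := hb a x b (hx b List.mem_cons_self)
      rw [Nat.add_mul, one_mul]
      omega
  refine (h1 _ (g a) (fun b hb => List.mem_of_mem_take hb)).trans ?_
  have h2 : ((l a).take i).length ≤ sz (l a) :=
    (List.length_take_le' _ _).trans (length_le_sz _)
  exact Nat.add_le_add_left (Nat.mul_le_mul_right _ h2) _

end

end Pool.Agent.helper81.PL
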