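import Pool.Agent.helper81.PL.Iter

/-!
# Polynomial time library: numbers and lists
-/

set_option autoImplicit false
set_option linter.dupNamespace false
set_option linter.unusedVariables false
set_option linter.unusedSectionVars false

namespace Pool.Agent.helper81.PL

open Pool.Agent.helper62 Prog Function Polynomial

variable {α β γ δ : Type} [Rep α] [Rep β] [Rep γ] [Rep δ]

/-- comparison of numbers -/
def leb (a b : ℕ) : Bool := decide (a ≤ b)

section

variable [S1]

/-! ### Numbers -/

@[fun_prop] theorem pt_add : PT (fun p : ℕ × ℕ => p.1 + p.2) := by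
  have h : PT (fun p : ℕ × ℕ => ((fun (p : ℕ × ℕ) (n : ℕ) => n + 1) p)^[p.2] p.1) := by
    refine pt_iter (c := fun p => sz p * 2) (by fun_prop) (by fun_prop) (by fun_prop)
      (PB.size.mul (PB.const 2)) (fun p i hi => ?_)
    have e : ((fun (p : ℕ × ℕ) (n : ℕ) => n + 1) p)^[i] p.1 = p.1 + i := by
      induction i with
      | zero => rfl
      | succ i ih => rw [iterate_succ_apply', ih (by omega)]; rfl
    rw [e, sz_nat, sz_prod, sz_nat, sz_nat]
    omega
  convert h using 2 with p
  obtain ⟨a, b⟩ := p
  simp only
  induction b with
  | zero => rfl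
  | succ b ih => rw [iterate_succ_apply', ← ih]; omega

@[fun_prop] theorem pt_sub : PT (fun p : ℕ × ℕ => p.1 - p.2) := by
  have h : PT (fun p : ℕ × ℕ => ((fun (p : ℕ × ℕ) (n : ℕ) => n - 1) p)^[p.2] p.1) := by
    refine pt_iter (c := fun p => sz p) (by fun_prop) (by fun_prop) (by fun_prop)
      PB.size (fun p i hi => ?_)
    have e : ((fun (p : ℕ × ℕ) (n : ℕ) => n - 1) p)^[i] p.1 = p.1 - i := by
      induction i with
      | zero => rfl
      | succ i ih => rw [iterate_succ_apply', ih (by omega)]; rfl
    rw [e, sz_nat, sz_prod, sz_nat, sz_nat]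
    omega
  convert h using 2 with p
  obtain ⟨a, b⟩ := p
  simp only
  induction b with
  | zero => rfl
  | succ b ih => rw [iterate_succ_apply', ← ih]; omega

@[fun_prop] theorem pt_mul : PT (fun p : ℕ × ℕ => p.1 * p.2) := by
  have h : PT (fun p : ℕ × ℕ => ((fun (p : ℕ × ℕ) (n : ℕ) => n + p.1) p)^[p.2] 0) := by
    refine pt_iter (c := fun p => sz p * sz p + 1) (by fun_prop) (by fun_prop) (by fun_prop)
      ((PB.size.mul PB.size).add (PB.const 1)) (fun p i hi => ?_)
    have e : ((fun (p : ℕ × ℕ) (n : ℕ) => n + p.1) p)^[i] 0 = p.1 * i := by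
      induction i with
      | zero => rfl
      | succ i ih => rw [iterate_succ_apply', ih (by omega)]; ring
    rw [e, sz_nat, sz_prod, sz_nat, sz_nat]
    nlinarith [Nat.mul_le_mul_left p.1 hi]
  convert h using 2 with p
  obtain ⟨a, b⟩ := p
  simp only
  induction b with
  | zero => rfl
  | succ b ih => rw [iterate_succ_apply', ← ih]; ring

@[fun_prop] theorem pt_leb : PT (fun p : ℕ × ℕ => leb p.1 p.2) := by
  have h : PT (fun p : ℕ × ℕ => eqb (p.1 - p.2) 0) := by fun_prop
  convert h using 2 with p
  unfold leb eqb
  rw [decide_eq_decide]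
  omega

@[fun_prop] theorem pt_min : PT (fun p : ℕ × ℕ => min p.1 p.2) := by
  have h : PT (fun p : ℕ × ℕ => bif leb p.1 p.2 then p.1 else p.2) := by fun_prop
  convert h using 2 with p
  unfold leb
  by_cases h : p.1 ≤ p.2
  · simp [h]
  · simp [h]; omega

@[fun_prop] theorem pt_max : PT (fun p : ℕ × ℕ => max p.1 p.2) := by
  have h : PT (fun p : ℕ × ℕ => bif leb p.1 p.2 then p.2 else p.1) := by fun_prop
  convert h using 2 with p
  unfold leb
  by_cases h : p.1 ≤ p.2
  · simp [h]
  · simp [h]; omega

/-! ### Lists -/

@[fun_prop] theorem pt_length : PT (fun l : List α => l.length) := by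
  have h : PT (fun l : List α => l.foldl (fun n _ => n + 1) 0) := by
    refine pt_foldl_add (c := fun _ => 2) (s := fun _ n _ => n + 1) (by fun_prop) (by fun_prop)
      (by fun_prop) (PB.const 2) (fun a x b hb => ?_)
    simp only [sz_nat]
    omega
  convert h using 2 with l
  have : ∀ (l : List α) (n : ℕ), l.foldl (fun n _ => n + 1) n = n + l.length := by
    intro l
    induction l with
    | nil => intro n; rfl
    | cons a l ih => intro n; rw [List.foldl_cons, ih, List.length_cons]; omega
  rw [this, zero_add]

/-- reverse and append -/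
theorem pt_revApp : PT (fun p : List α × List α => p.1.reverse ++ p.2) := by
  have h : PT (fun p : List α × List α => p.1.foldl (fun t a => a :: t) p.2) := by
    refine pt_foldl_add (c := fun p => sz p) (s := fun _ t a => a :: t) (by fun_prop)
      (by fun_prop) (by fun_prop) PB.size (fun p x b hb => ?_)
    have := sz_le_of_mem hb
    rw [sz_cons, sz_prod]
    omega
  convert h using 2 with p
  have : ∀ (l t : List α), l.foldl (fun t a => a :: t) t = l.reverse ++ t := by
    intro l
    induction l with
    | nil => intro n; rfl
    | cons a l ih => intro n; rw [List.foldl_cons, ih]; simp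
  rw [this]

@[fun_prop] theorem pt_reverse : PT (fun l : List α => l.reverse) := by
  have h : PT (fun l : List α => l.reverse ++ []) :=
    PT.comp (f := fun l : List α => (l, [])) pt_revApp (by fun_prop)
  convert h using 2 with l
  simp

@[fun_prop] theorem pt_append : PT (fun p : List α × List α => p.1 ++ p.2) := by
  have h : PT (fun p : List α × List α => p.1.reverse.reverse ++ p.2) :=
    PT.comp (f := fun p : List α × List α => (p.1.reverse, p.2)) pt_revApp (by fun_prop)
  convert h using 2 with l
  simp

/-- A bound for the size of values. -/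
theorem PB.of_mem {f : α → β → γ} {l : α → List β} (hf : PT (fun p : α × β => f p.1 p.2))
    (hl : PT l) : ∃ c : α → ℕ, PB c ∧ ∀ a, ∀ b ∈ l a, sz (f a b) ≤ c a := by
  obtain ⟨q, hq⟩ := hf.size
  refine ⟨fun a => q.eval (sz a + sz (l a) + 1), ((PB.size.add hl.size).add (PB.const 1)).poly q,
    fun a b hb => (hq (a, b)).trans (Pool.Agent.H54.PT.pe_mono q ?_)⟩
  rw [sz_prod]
  have := sz_le_of_mem hb
  omega

/-- Folds over the values of a list may use membership in size bounds; this is `foldl_add` with
an additional function. -/
@[fun_prop] theorem pt_map {f : α → β → γ} {l : α → List β} (hf : PT (fun p : α × β => f p.1 p.2))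
    (hl : PT l) : PT (fun a => (l a).map (f a)) := by
  obtain ⟨c, h1, h2⟩ := PB.of_mem hf hl
  have h : PT (fun a => ((l a).foldl ((fun (a : α) (t : List γ) (b : β) => f a b :: t) a) []).reverse) := by
    refine PT.comp pt_reverse (pt_foldl_add (c := fun a => c a + 1) hl (PT.const _) ?_
      (h1.add (PB.const 1)) (fun a x b hb => ?_))
    · exact PT.comp (f := fun p : α × List γ × β => (f p.1 p.2.2, p.2.1)) pt_cons
        (PT.pair (PT.comp (f := fun p : α × List γ × β => (p.1, p.2.2)) hf (by fun_prop))
          (by fun_prop))
    · rw [sz_cons]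
      have := h2 a b hb
      omega
  convert h using 2 with a
  have : ∀ (l : List β) (t : List γ), l.foldl ((fun (a : α) (t : List γ) (b : β) => f a b :: t) a) t =
      (l.map (f a)).reverse ++ t := by
    intro l
    induction l with
    | nil => intro n; rfl
    | cons a l ih => intro n; rw [List.foldl_cons, ih]; simp
  rw [this]
  simp

@[fun_prop] theorem pt_filter {f : α → β → Bool} {l : α → List β}
    (hf : PT (fun p : α × β => f p.1 p.2)) (hl : PT l) : PT (fun a => (l a).filter (f a)) := by
  have h : PT (fun a => ((l a).foldl ((fun (a : α) (t : List β) (b : β) =>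
      bif f a b then b :: t else t) a) []).reverse) := by
    refine PT.comp pt_reverse (pt_foldl_add (c := fun a => sz (l a) + 1) hl (PT.const _) ?_
      (hl.size.add (PB.const 1)) (fun a x b hb => ?_))
    · refine PT.cond_of ?_ (by fun_prop) (by fun_prop)
      exact PT.comp (f := fun p : α × List β × β => (p.1, p.2.2)) hf (by fun_prop)
    · have := sz_le_of_mem hb
      cases f a b <;> simp only [cond_true, cond_false, sz_cons] <;> omega
  convert h using 2 with a
  have : ∀ (l : List β) (t : List β), l.foldl ((fun (a : α) (t : List β) (b : β) =>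
      bif f a b then b :: t else t) a) t = (l.filter (f a)).reverse ++ t := by
    intro l
    induction l with
    | nil => intro n; rfl
    | cons b l ih =>
      intro n
      rw [List.foldl_cons, ih, List.filter_cons]
      cases hfa : f a b <;> simp [hfa]
  rw [this]
  simp

@[fun_prop] theorem pt_flatten : PT (fun l : List (List α) => l.flatten) := by
  have h : PT (fun l : List (List α) => (l.foldl (fun t b => t ++ b) [])) := by
    refine pt_foldl_add (c := fun a => sz a) (s := fun _ t b => t ++ b) (by fun_prop) (PT.const _)
      (by fun_prop) PB.size (fun a x b hb => ?_)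
    have := sz_le_of_mem hb
    have := sz_append x b
    omega
  convert h using 2 with l
  have : ∀ (l : List (List α)) (t : List α), l.foldl (fun t b => t ++ b) t = t ++ l.flatten := by
    intro l
    induction l with
    | nil => intro n; simp
    | cons b l ih =>
      intro n
      rw [List.foldl_cons, ih, List.flatten_cons, List.append_assoc]
  rw [this]
  simp

@[fun_prop] theorem pt_flatMap {f : α → β → List γ} {l : α → List β}
    (hf : PT (fun p : α × β => f p.1 p.2)) (hl : PT l) : PT (fun a => (l a).flatMap (f a)) := by
  have h : PT (fun a => ((l a).map (f a)).flatten) := by fun_prop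
  exact h

@[fun_prop] theorem pt_range : PT (fun n : ℕ => List.range n) := by
  have h : PT (fun n : ℕ => (((fun (n : ℕ) (l : List ℕ) => l.length :: l) n)^[n] []).reverse) := by
    refine PT.comp pt_reverse (pt_iter (c := fun n => sz n * (sz n + 1) + 1) (by fun_prop)
      (PT.const _) (by fun_prop) ((PB.size.mul (PB.size.add (PB.const 1))).add (PB.const 1))
      (fun n i hi => ?_))
    have e : ((fun (n : ℕ) (l : List ℕ) => l.length :: l) n)^[i] [] = (List.range i).reverse := by
      induction i with
      | zero => rfl
      | succ i ih => rw [iterate_succ_apply', ih (by omega), List.range_succ]; simp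
    rw [e, sz_reverse]
    refine sz_list_le ?_ (fun a ha => ?_)
    · rw [List.length_range, sz_nat]; omega
    · rw [List.mem_range] at ha
      rw [sz_nat, sz_nat]
      omega
  convert h using 2 with n
  have e : ∀ i, ((fun (n : ℕ) (l : List ℕ) => l.length :: l) n)^[i] [] = (List.range i).reverse := by
    intro i
    induction i with
    | zero => rfl
    | succ i ih => rw [iterate_succ_apply', ih, List.range_succ]; simp
  rw [e]
  simp

end

end Pool.Agent.helper81.PL
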