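import Pool.Agent.helper81.PL.ListA

/-!
# Polynomial time library: more functions on lists
-/

set_option autoImplicit false
set_option linter.dupNamespace false
set_option linter.unusedVariables false
set_option linter.unusedSectionVars false

namespace Pool.Agent.helper81.PL

open Pool.Agent.helper62 Prog Function Polynomial

variable {α β γ δ : Type} [Rep α] [Rep β] [Rep γ] [Rep δ]

/-- membership in a list -/
def memb {α : Type} [DecidableEq α] (a : α) (l : List α) : Bool := decide (a ∈ l)

/-- a minimal element of a list for a key (the first one), with a default value -/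
def argminD {α : Type} (key : α → ℕ) (d : α) (l : List α) : α :=
  (l.find? (fun a => l.all (fun b => leb (key a) (key b)))).getD d

section

variable [S1]

@[fun_prop] theorem pt_drop : PT (fun p : ℕ × List α => p.2.drop p.1) := by
  have e : ∀ (p : ℕ × List α) (i : ℕ),
      ((fun (p : ℕ × List α) (l : List α) => l.tail) p)^[i] p.2 = p.2.drop i := by
    intro p i
    induction i with
    | zero => rfl
    | succ i ih => rw [iterate_succ_apply', ih]; simp
  have h : PT (fun p : ℕ × List α =>
      ((fun (p : ℕ × List α) (l : List α) => l.tail) p)^[p.1] p.2) := by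
    refine pt_iter (c := fun p => sz p) (by fun_prop) (by fun_prop) (by fun_prop)
      PB.size (fun p i hi => ?_)
    rw [e]
    have := sz_sublist (List.drop_sublist i p.2)
    rw [sz_prod]
    omega
  convert h using 2 with p
  rw [e]

@[fun_prop] theorem pt_take : PT (fun p : ℕ × List α => p.2.take p.1) := by
  have h : PT (fun p : ℕ × List α => (p.2.reverse.drop (p.2.length - p.1)).reverse) := by
    fun_prop
  convert h using 2 with p
  rw [List.drop_reverse, List.reverse_reverse]
  rcases le_total p.1 p.2.length with h | h
  · congr 1; omega
  · rw [List.take_of_length_le h, List.take_of_length_le]; omega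

@[fun_prop] theorem pt_getElem? : PT (fun p : List α × ℕ => p.1[p.2]?) := by
  have h : PT (fun p : List α × ℕ => (p.1.drop p.2).head?) := by fun_prop
  convert h using 2 with p
  rw [List.head?_drop]

@[fun_prop] theorem pt_getD : PT (fun p : List α × ℕ × α => p.1.getD p.2.1 p.2.2) := by
  have h : PT (fun p : List α × ℕ × α => (p.1[p.2.1]?).getD p.2.2) := by fun_prop
  convert h using 2 with p
  rw [List.getD_eq_getElem?_getD]

@[fun_prop] theorem pt_all {f : α → β → Bool} {l : α → List β}
    (hf : PT (fun p : α × β => f p.1 p.2)) (hl : PT l) : PT (fun a => (l a).all (f a)) := by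
  have h : PT (fun a => ((l a).filter (fun b => !f a b)).isEmpty) := by fun_prop
  convert h using 2 with a
  rw [Bool.eq_iff_iff, List.all_eq_true, List.isEmpty_iff, List.filter_eq_nil_iff]
  simp

@[fun_prop] theorem pt_any {f : α → β → Bool} {l : α → List β}
    (hf : PT (fun p : α × β => f p.1 p.2)) (hl : PT l) : PT (fun a => (l a).any (f a)) := by
  have h : PT (fun a => !((l a).all (fun b => !f a b))) := by fun_prop
  convert h using 2 with a
  rw [List.any_eq_not_all_not]

@[fun_prop] theorem pt_find? {f : α → β → Bool} {l : α → List β}
    (hf : PT (fun p : α × β => f p.1 p.2)) (hl : PT l) : PT (fun a => (l a).find? (f a)) := by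
  have h : PT (fun a => ((l a).filter (f a)).head?) := by fun_prop
  convert h using 2 with a
  rw [List.head?_filter]

@[fun_prop] theorem pt_memb {α : Type} [RepInj α] [DecidableEq α] :
    PT (fun p : α × List α => memb p.1 p.2) := by
  have h : PT (fun p : α × List α => p.2.any (fun b => eqb b p.1)) := by fun_prop
  convert h using 2 with p
  unfold memb eqb
  rw [Bool.eq_iff_iff]
  simp

@[fun_prop] theorem pt_sum : PT (fun l : List ℕ => l.sum) := by
  have h : PT (fun l : List ℕ => l.foldl (fun n m => n + m) 0) := by
    refine pt_foldl_add (c := fun l => sz l) (s := fun _ n m => n + m) (by fun_prop) (by fun_prop)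
      (by fun_prop) PB.size (fun a x b hb => ?_)
    have := sz_le_of_mem hb
    rw [sz_nat] at this
    simp only [sz_nat]
    omega
  convert h using 2 with l
  have : ∀ (l : List ℕ) (n : ℕ), l.foldl (fun n m => n + m) n = n + l.sum := by
    intro l
    induction l with
    | nil => intro n; rfl
    | cons a l ih => intro n; rw [List.foldl_cons, ih, List.sum_cons]; omega
  rw [this, zero_add]

@[fun_prop] theorem pt_optToList : PT (fun o : Option α => o.toList) := by
  have h : PT (fun o : Option α => o.elim [] (fun a => [a])) := by fun_prop
  convert h using 2 with o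
  cases o <;> rfl

@[fun_prop] theorem pt_filterMap {f : α → β → Option γ} {l : α → List β}
    (hf : PT (fun p : α × β => f p.1 p.2)) (hl : PT l) : PT (fun a => (l a).filterMap (f a)) := by
  have h : PT (fun a => (l a).flatMap (fun b => (f a b).toList)) := by fun_prop
  convert h using 2 with a
  induction l a with
  | nil => rfl
  | cons b t ih =>
    rw [List.filterMap_cons, List.flatMap_cons, ← ih]
    cases f a b <;> rfl

@[fun_prop] theorem pt_product : PT (fun p : List α × List β => p.1.product p.2) := by
  have h : PT (fun p : List α × List β => p.1.flatMap (fun a => p.2.map (fun b => (a, b)))) := by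
    fun_prop
  exact h

@[fun_prop] theorem pt_sprod : PT (fun p : List α × List β => p.1 ×ˢ p.2) := pt_product

@[fun_prop] theorem pt_replicate : PT (fun p : ℕ × α => List.replicate p.1 p.2) := by
  have h : PT (fun p : ℕ × α => (List.range p.1).map (fun _ => p.2)) := by fun_prop
  convert h using 2 with p
  simp

@[fun_prop] theorem pt_zip : PT (fun p : List α × List β => p.1.zip p.2) := by
  rcases isEmpty_or_nonempty α with h | ⟨⟨d⟩⟩
  · have e : (fun p : List α × List β => p.1.zip p.2) = fun _ => [] := by
      funext p
      obtain ⟨l, m⟩ := p
      cases l with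
      | nil => rfl
      | cons b t => exact (h.false b).elim
    rw [e]; fun_prop
  · rcases isEmpty_or_nonempty β with h | ⟨⟨d'⟩⟩
    · have e : (fun p : List α × List β => p.1.zip p.2) = fun _ => [] := by
        funext p
        obtain ⟨l, m⟩ := p
        cases m with
        | nil => simp
        | cons b t => exact (h.false b).elim
      rw [e]; fun_prop
    · have h : PT (fun p : List α × List β => (List.range (min p.1.length p.2.length)).map
          (fun i => (p.1.getD i d, p.2.getD i d'))) := by fun_prop
      convert h using 2 with p
      apply List.ext_getElem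
      · simp
      · intro i h1 h2
        simp only [List.length_zip] at h1
        have h3 : i < p.1.length := by omega
        have h4 : i < p.2.length := by omega
        simp [h3, h4]

@[fun_prop] theorem pt_zipWith {f : α → β → γ → δ} {l : α → List β} {m : α → List γ}
    (hf : PT (fun p : α × β × γ => f p.1 p.2.1 p.2.2)) (hl : PT l) (hm : PT m) :
    PT (fun a => List.zipWith (f a) (l a) (m a)) := by
  have h : PT (fun a => ((l a).zip (m a)).map (fun q => f a q.1 q.2)) := by fun_prop
  convert h using 2 with a
  rw [List.zip, List.map_zipWith]

@[fun_prop] theorem pt_dedup {α : Type} [RepInj α] [DecidableEq α] :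
    PT (fun l : List α => l.dedup) := by
  have h : PT (fun l : List α => l.reverse.foldl (fun t a => bif memb a t then t else a :: t) []) := by
    refine pt_foldl_add (c := fun a => sz a + 1) (s := fun _ t a => bif memb a t then t else a :: t)
      (by fun_prop) (PT.const _) (by fun_prop) (PB.size.add (PB.const 1)) (fun a x b hb => ?_)
    have := sz_le_of_mem (List.mem_reverse.mp hb)
    cases memb b x <;> simp only [cond_true, cond_false, sz_cons] <;> omega
  convert h using 2 with l
  rw [List.foldl_reverse]
  induction l with
  | nil => rfl
  | cons a l ih =>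
    rw [List.foldr_cons, ← ih]
    unfold memb
    by_cases h : a ∈ l
    · rw [List.dedup_cons_of_mem h]; simp [h]
    · rw [List.dedup_cons_of_notMem h]; simp [h]

@[fun_prop] theorem pt_div : PT (fun p : ℕ × ℕ => p.1 / p.2) := by
  have h : PT (fun p : ℕ × ℕ => ((List.range (p.1 + 1)).filter
      (fun q => leb 1 p.2 && leb (p.2 * q) p.1)).length - 1) := by fun_prop
  convert h using 2 with p
  obtain ⟨a, b⟩ := p
  simp only
  rcases Nat.eq_zero_or_pos b with rfl | hb
  · simp [leb]
  · have e : (List.range (a + 1)).filter (fun q => leb 1 b && leb (b * q) a) =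
        List.range (a / b + 1) := by
      have h1 : a + 1 = (a / b + 1) + (a - a / b) := by
        have := Nat.div_le_self a b
        omega
      rw [h1, List.range_add, List.filter_append]
      have h2 : (List.range (a / b + 1)).filter (fun q => leb 1 b && leb (b * q) a) =
          List.range (a / b + 1) := by
        rw [List.filter_eq_self]
        intro q hq
        rw [List.mem_range] at hq
        have : b * q ≤ a := (Nat.mul_le_mul_left b (Nat.lt_succ_iff.mp hq)).trans (Nat.mul_div_le a b)
        simp [leb, this]
        omega
      have h3 : ((List.range (a - a / b)).map (fun x => (a / b + 1) + x)).filter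
          (fun q => leb 1 b && leb (b * q) a) = [] := by
        rw [List.filter_eq_nil_iff]
        intro q hq
        rw [List.mem_map] at hq
        obtain ⟨i, _, rfl⟩ := hq
        have : ¬ b * (a / b + 1 + i) ≤ a := by
          intro h
          have h5 : a / b + 1 + i ≤ a / b :=
            (Nat.le_div_iff_mul_le hb).mpr (by rw [mul_comm]; exact h)
          omega
        simp [leb, this]
      rw [h2, h3, List.append_nil]
    rw [e]
    simp

@[fun_prop] theorem pt_mod : PT (fun p : ℕ × ℕ => p.1 % p.2) := by
  have h : PT (fun p : ℕ × ℕ => p.1 - p.2 * (p.1 / p.2)) := by fun_prop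
  convert h using 2 with p
  have := Nat.div_add_mod p.1 p.2
  omega

@[fun_prop] theorem pt_argminD {key : α → β → ℕ} {d : α → β} {l : α → List β}
    (hk : PT (fun p : α × β => key p.1 p.2)) (hd : PT d) (hl : PT l) :
    PT (fun a => argminD (key a) (d a) (l a)) := by
  unfold argminD
  fun_prop

end

end Pool.Agent.helper81.PL
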