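import Pool.Agent.helper81.PL.SpecA

set_option autoImplicit false
set_option linter.dupNamespace false
set_option linter.unusedVariables false

namespace Pool.Agent.helper81.PL

open Pool.Agent.helper62 Prog Function

theorem LEN : LEN_stmt := by
  intro α β _ _ f t h a
  obtain ⟨p, hp⟩ := h 0
  have h1 := hp a (update (fun _ => []) 0 (cd a)) (by simp) (fun i hi => by
    rw [update_of_ne (by omega)])
  have h2 := Pool.Agent.H54.PT.runs_length_le h1 0
  simpa [sz] using h2

theorem IDT : IDT_stmt := by
  intro α _ b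
  refine ⟨.skip, fun a S h _ => ?_⟩
  rw [← h, update_eq_self]
  exact Runs.skip S

theorem REP : REP_stmt := by
  intro α β α' β' _ _ _ _ f g φ t h e1 e2 b
  obtain ⟨p, hp⟩ := h b
  refine ⟨p, fun a S hS hi => ?_⟩
  have h1 := hp (φ a) S (by rw [hS, cd, cd, e1]) hi
  rw [cd, e2] at h1
  exact h1

theorem CMP : CMP_stmt := by
  intro α β γ _ _ _ f g t t' hf hg b
  obtain ⟨p, hp⟩ := hf b
  obtain ⟨q, hq⟩ := hg b
  refine ⟨.seq p q, fun a S hS hi => ?_⟩
  have h1 := hp a S hS hi
  have h2 := hq (f a) (update S b (cd (f a))) (by simp) (fun i hib => by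
    rw [update_of_ne (by omega)]; exact hi i hib)
  rw [update_idem] at h2
  exact h1.seq h2

end Pool.Agent.helper81.PL
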