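import Pool.Agent.helper81.PL.Defs

/-!
# Stage 1 of the polynomial time library: base layer

All modules are independent: module `XX` proves `theorem XX ... : XX_stmt`, every other statement
of this file may be a hypothesis.
-/

set_option autoImplicit false
set_option linter.dupNamespace false
set_option linter.unusedVariables false

namespace Pool.Agent.helper81.PL

open Pool.Agent.helper62 Prog Function

/-- LEN: the value is not longer than the argument plus the time.
Proof: `Pool.Agent.H54.PT.runs_length_le` at the stack 0 (take `b = 0`, `S = update (fun _ => []) 0 (cd a)`). -/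
def LEN_stmt : Prop :=
  ∀ (α β : Type) [Rep α] [Rep β] (f : α → β) (t : α → ℕ), CT f t → ∀ a, sz (f a) ≤ sz a + t a

/-- PFX: codes of trees are prefix free. Proof: induction on `a`, generalising `b u v`. -/
def PFX_stmt : Prop :=
  ∀ (a b : Tr) (u v : List Bool), a.code ++ u = b.code ++ v → a = b ∧ u = v

/-- DUP: copying a stack. Proof: `Runs.pour` to `d + 1` (reversed), then induction on the list
for the loop (symbols come back in the right order and are pushed on both stacks). -/
def DUP_stmt : Prop :=
  ∀ (b d : ℕ) (S : ℕ → List Bool), b < d → S d = [] → S (d + 1) = [] →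
    Runs (dup b d) S (update S d (S b)) (8 * (S b).length + 8)

/-- PRS: reading one tree. Proof: prove by induction on the tree `a` the more general statement:
from `S b = a.code ++ l`, `S (b + 1) = true :: replicate m true` (so the loop has still `m + 1` trees to read)
the loop reaches the state with `l` on `b`, `replicate m true` on `b + 1`, `a.code.reverse ++ S (b + 2)` on
`b + 2`, and continues; formulate it with a continuation: if `Runs (prs b) S' S'' t` from that
state `S'` then `Runs (prs b) S S'' (t + 6 * a.code.length)`. -/
def PRS_stmt : Prop :=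
  ∀ (b : ℕ) (a : Tr) (l : List Bool) (S : ℕ → List Bool),
    S b = a.code ++ l → S (b + 1) = [true] →
    Runs (prs b) S (update (update (update S b l) (b + 1) []) (b + 2) (a.code.reverse ++ S (b + 2)))
      (6 * a.code.length + 6)

/-- IDT: identity. Program `skip`. -/
def IDT_stmt : Prop := ∀ (α : Type) [Rep α], CT (fun a : α => a) (fun _ => 1)

/-- REP: same codes, same program. Trivial: `cd (f a) = cd (g a)` and the program of `f` works. -/
def REP_stmt : Prop :=
  ∀ (α β α' β' : Type) [Rep α] [Rep β] [Rep α'] [Rep β'] (f : α → β) (g : α' → β') (φ : α → α')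
    (t : α' → ℕ), CT g t → (∀ a, Rep.rep (φ a) = Rep.rep a) →
    (∀ a, Rep.rep (g (φ a)) = Rep.rep (f a)) → CT f (fun a => t (φ a))

/-- CMP: composition. Program `seq p q`. -/
def CMP_stmt : Prop :=
  ∀ (α β γ : Type) [Rep α] [Rep β] [Rep γ] (f : α → β) (g : β → γ) (t : α → ℕ) (t' : β → ℕ),
    CT f t → CT g t' → CT (fun a => g (f a)) (fun a => t a + t' (f a))

/-- CST: constants. Program: `clear b`, then `pushes b` of the reversed code. -/
def CST_stmt : Prop :=
  ∀ (α β : Type) [Rep α] [Rep β] (x : β), ∃ c : ℕ, CT (fun _ : α => x) (fun a => 2 * sz a + c)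

/-- PAR: pairs. Program at `b`: `dup b (b+1)`, `p` at `b + 1`, `dup b (b+2)`, `q` at `b + 2`,
`clear b`, `pour (b+2) (b+3)`, `pour (b+3) b`, `pour (b+1) (b+3)`, `pour (b+3) b`, `push b true`. -/
def PAR_stmt : Prop :=
  ∃ c : ℕ, ∀ (α β γ : Type) [Rep α] [Rep β] [Rep γ] (f : α → β) (g : α → γ) (t t' : α → ℕ),
    CT f t → CT g t' →
    CT (fun a => (f a, g a)) (fun a => t a + t' a + c * (sz a + sz (f a) + sz (g a)))

/-- CAR: first subtree. Program: `ifp b` (`false`: push `false`; `true`: `push (b+1) true`, `prs b`,
`clear b`, `pour (b+2) b`). -/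
def CAR_stmt : Prop := ∃ c : ℕ, CT Tr.car (fun x => c * sz x)

/-- CDR: second subtree. Program: `ifp b` (`false`: push `false`; `true`: `push (b+1) true`, `prs b`,
`clear (b+2)`). -/
def CDR_stmt : Prop := ∃ c : ℕ, CT Tr.cdr (fun x => c * sz x)

/-- CND: conditional. Program at `b`: `dup b (b+1)`, `r` at `b + 1` (the condition), then
`ifp (b+1)`: `false` (the code of `false` is `[false]`): `q` at `b`; `true` (the code of `true` is
`[true, false, false]`): `clear (b+1)`, `p` at `b`. -/
def CND_stmt : Prop :=
  ∃ c : ℕ, ∀ (α β : Type) [Rep α] [Rep β] (r : α → Bool) (f g : α → β) (t t1 t2 : α → ℕ),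
    CT r t → CT f t1 → CT g t2 →
    CT (fun a => bif r a then f a else g a)
      (fun a => t a + (bif r a then t1 a else t2 a) + c * sz a)

/-- EQT: equality of trees. Program at `b`: pop `true`, `push (b+1) true`, `prs b` (now the code of the
second tree is on `b`, the reversed code of the first one on `b + 2`), `pour (b+2) (b+1)`, loop on
`b + 1` popping `b` in parallel and pushing `true` on `b + 3` at a mismatch, then `clear b`, and
push `[true, false, false]` or `[false]` on `b` according to whether `b + 3` is empty (clear it).
Codes of different trees differ at a position inside both (PFX). -/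
def EQT_stmt : Prop :=
  ∃ c : ℕ, CT (fun p : Tr × Tr => decide (p.1 = p.2)) (fun p => c * sz p)

/-- ITR: iteration. Program at `b`: pop `true`, `push (b+1) true`, `prs b` (now the code of `x` is on `b`
and the reversed code of the number `n`, `false :: (false, true)^n`, on `b + 2`), loop on `b + 2`
pushing `true` on `b + 1` for every symbol `true`; `pour b (b+2)`, `pour (b+1) b`,
`pour (b+2) (b+1)`; then `loop b skip (p at b + 1)`; then `pour (b+1) (b+2)`, `pour (b+2) b`. -/
def ITR_stmt : Prop :=
  ∃ c : ℕ, ∀ (α : Type) [Rep α] (s : α → α) (t : α → ℕ), CT s t →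
    CT (fun p : ℕ × α => s^[p.1] p.2)
      (fun p => (∑ i ∈ Finset.range p.1, (t (s^[i] p.2) + 1)) +
        c * (sz p + sz (s^[p.1] p.2)))

/-- SIZ: the size in unary. Program at `b`: `loop b (push (b+1) true) (push (b+1) true)`,
`push b false`, `loop (b+1) skip (seq (push b false) (push b true))` (the code of the number `n` is
`(true, false)^n, false`). -/
def SIZ_stmt : Prop := ∃ c : ℕ, ∀ (α : Type) [Rep α], CT (fun a : α => sz a) (fun a => c * sz a)

/-- INP: reading the input word. Program: `pour 0 1`, `push 0 false`, loop on `1`: for a symbol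
`false` push `false, true` (so that `true :: false ::` is in front), for a symbol `true` push
`false, false, true, true` (the code of `true :: l` is `true, true, false, false, ...`). -/
def INP_stmt : Prop :=
  ∃ (p : Prog ℕ) (c : ℕ), ∀ w : List Bool,
    Runs p (update (fun _ => []) 0 w) (update (fun _ => []) 0 (cd w)) (c * (w.length + 1))

/-- OUT: writing the answer. Program: `ifp 0 skip (push 0 false) (seq (clear 0) (push 0 true))`. -/
def OUT_stmt : Prop :=
  ∃ (p : Prog ℕ) (c : ℕ), ∀ b : Bool,
    Runs p (update (fun _ => []) 0 (cd b)) (update (fun _ => []) 0 [b]) c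

/-- MAC: from programs to machines. Proof: INP, the program of `f` at `0`, OUT in sequence; restrict
to finitely many stacks by `Pool.Agent.H54.PT.exists_supp`, `exec_toFin`; compile as in
`Pool.Agent.helper62.Prog.toPolyTime` (same proof, the time function is now arbitrary). -/
def MAC_stmt : Prop :=
  ∃ c : ℕ, ∀ (A : Type) (e : A → List Bool) (f : List Bool → Bool) (t : List Bool → ℕ),
    CT f t → MachineTime e (fun a => f (e a)) (fun a => t (e a) + c * ((e a).length + 1))

end Pool.Agent.helper81.PL
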